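import Pool.Agent.Lib.MP_9c903d_ag.NK.Defs

/-!
# Cohomological data of compact Kaehler manifolds, with the Hodge decomposition of `H^2`
-/

namespace Pool.Agent.MP_9c903d

open scoped ComplexConjugate commutatorElement

/-- `HodgeRiemannData` together with the Hodge decomposition of `H^2(M; ℂ)`, which contains
`H^2(G; ℂ)`. -/
structure HodgeTypeData (G : Type*) [Group G] extends HodgeRiemannData G where
  /-- If `∑ (a_i + conj b_i) ∪ (c_i + conj d_i) = 0` with holomorphic `a_i, b_i, c_i, d_i`, then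
  the component `∑ a_i ∪ c_i` of type `(2,0)` is `0`. -/
  part : ∀ (n : ℕ) (a b c d : Fin n → H1 G), (∀ i, a i ∈ V) → (∀ i, b i ∈ V) → (∀ i, c i ∈ V) →
    (∀ i, d i ∈ V) → CupZero (fun i => a i + cj (b i)) (fun i => c i + cj (d i)) → CupZero a c

/-- The alternating form `∑ k_ij ε_i ⊗ ε_j` on `G` is the coboundary of a function. -/
def InK {G : Type*} [Group G] {I : Type*} [Fintype I] (ε : I → H1 G) (k : I → I → ℂ) : Prop :=
  (∀ i j, k i j = - k j i) ∧ ∃ c : G → ℂ, ∀ g h : G,
    ∑ i, ∑ j, k i j * ε i (.ofMul g) * ε j (.ofMul h) = c (g * h) - c g - c h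

/-- The alternating array with the blocks `n` of type `(2,0)`, `h` of type `(1,1)` and `n'` of type
`(0,2)`. -/
def arr {q : ℕ} (n h n' : Fin q → Fin q → ℂ) : Fin q ⊕ Fin q → Fin q ⊕ Fin q → ℂ
  | .inl i, .inl j => n i j
  | .inl i, .inr j => h i j
  | .inr i, .inl j => - h j i
  | .inr i, .inr j => n' i j

end Pool.Agent.MP_9c903d
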