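import Pool.Agent.Lib.MP_9c903d_ag.NL.Pull

/-!
# Part LinB: the relations of type (1,1)

Proof. Suppose `τ ≠ 0`. Choose (`exists_linearIndependent'`) an injective `a : κ → Fin q` such that
the `τ (a m)`, `m : κ`, are independent and span `{τ i}`; `τ i = ∑ m, s i m • τ (a m)`, so
`s (a n) m = δ_mn`. By hM4 `r := card κ ≤ 3`; `r ≥ 1`.
By symmetry `τ i j k = τ j i k = ∑ m, s j m * τ (a m) i k`; so every `h` in the span of the `τ i` has
the form `h j k = ∑ m, s j m * u m k`, and then `u m k = h (a m) k` (put `j = a m`), that is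
(*) `h j k = ∑ m, s j m * h (a m) k`.
r = 1: `h = τ (a 0) ≠ 0`, `h j k = s j * h (a 0) k`, `s ≠ 0`, `h (a 0) ≠ 0`, InR gives
`F P s b (h (a 0)) c = 0` for all `b c`: contradiction to `rank_one hP hq`.
r = 2, 3: take `m ≠ m'` in `κ`, `h1 = τ (a m)`, `h2 = τ (a m')`, `St h := fun i j => conj (h j i)`. The
four elements `h1, h2, St h1, St h2` of `M` are dependent (hM4): `x1 h1 + x2 h2 + y1 St h1 + y2 St h2 =
0`. `h := x1 h1 + x2 h2` is not `0`: else `x1 = x2 = 0` and (apply `St`) `y1 = y2 = 0`. `h` is in the
span of the `τ i`, and `St h` too. By (*) for `h` and for `St h`: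
`h j k = ∑ m, s j m * h (a m) k` and `h j k = ∑ n, h j (a n) * conj (s k n)`, so
`h j k = ∑ m, ∑ n, h (a m) (a n) * s j m * conj (s k n)`. With `κ ≃ Fin r`, the vectors
`fun j => s j m` are independent (look at the coordinates `a n`), `h` is in `M`, so InR P h, and
`nl_pull` gives `h (a m) (a n) = 0` for all `m n`, so `h = 0`: contradiction.
-/

namespace Pool.Agent.MP_9c903d

open scoped ComplexConjugate

private theorem nl_F_of_InR {q : ℕ} {P : Fin q → Fin q → Fin q → Fin q → ℂ} {h : Fin q → Fin q → ℂ}
    (hR : InR P h) (a u : Fin q → ℂ) (hau : ∀ j k, h j k = a j * u k) (b c : Fin q → ℂ) :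
    F P a b u c = 0 := by
  have e : F P a b u c = ∑ j, ∑ l, b j * c l * ∑ i, ∑ k, h i k * P i j k l := by
    unfold F
    rw [Finset.sum_comm]
    refine Finset.sum_congr rfl fun j _ => ?_
    have e1 : ∀ i, ∑ k, ∑ l, a i * b j * u k * c l * P i j k l =
        ∑ l, ∑ k, a i * b j * u k * c l * P i j k l := fun i => Finset.sum_comm
    simp only [e1]
    rw [Finset.sum_comm]
    refine Finset.sum_congr rfl fun l _ => ?_
    rw [Finset.mul_sum]
    refine Finset.sum_congr rfl fun i _ => ?_
    rw [Finset.mul_sum]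
    refine Finset.sum_congr rfl fun k _ => ?_
    rw [hau]; ring
  rw [e]
  refine Finset.sum_eq_zero fun j _ => Finset.sum_eq_zero fun l _ => ?_
  rw [hR j l, mul_zero]

theorem nl_lin21 {q : ℕ} {P : Fin q → Fin q → Fin q → Fin q → ℂ} (hP : IsForm P) (hq : 2 ≤ q)
    (M : Submodule ℂ (Fin q → Fin q → ℂ)) (hM1 : ∀ h ∈ M, InR P h)
    (hM2 : ∀ h ∈ M, (fun i j => conj (h j i)) ∈ M)
    (hM4 : ∀ h : Fin 4 → Fin q → Fin q → ℂ, (∀ i, h i ∈ M) → ¬ LinearIndependent ℂ h)
    (τ : Fin q → Fin q → Fin q → ℂ) (hτ : ∀ i, τ i ∈ M) (hs : ∀ i j k, τ i j k = τ j i k) :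
    τ = 0 := by
  classical
  by_contra h0
  obtain ⟨r, b, hli, hsp⟩ : ∃ (r : ℕ) (b : Fin r → Fin q), LinearIndependent ℂ (fun m => τ (b m)) ∧
      ∀ i, τ i ∈ Submodule.span ℂ (Set.range fun m => τ (b m)) := by
    obtain ⟨κ, a, ha, hspan, hli⟩ := exists_linearIndependent' ℂ τ
    have : Finite κ := Finite.of_injective a ha
    let _ : Fintype κ := Fintype.ofFinite κ
    let e := Fintype.equivFin κ
    refine ⟨Fintype.card κ, a ∘ e.symm, hli.comp _ e.symm.injective, fun i => ?_⟩
    have hr : Set.range (fun m => τ ((a ∘ e.symm) m)) = Set.range (τ ∘ a) := by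
      ext x
      constructor
      · rintro ⟨m, rfl⟩; exact ⟨e.symm m, rfl⟩
      · rintro ⟨m, rfl⟩; exact ⟨e m, by simp⟩
    rw [hr, hspan]
    exact Submodule.subset_span ⟨i, rfl⟩
  have hex : ∀ i, ∃ c : Fin r → ℂ, ∑ m, c m • τ (b m) = τ i := fun i =>
    (Submodule.mem_span_range_iff_exists_fun ℂ).1 (hsp i)
  choose s hsum using hex
  have hδ : ∀ n m, s (b n) m = if m = n then 1 else 0 := by
    intro n
    have h1 : ∑ m, (s (b n) m - if m = n then 1 else 0) • τ (b m) = 0 := by
      simp only [sub_smul, Finset.sum_sub_distrib, hsum, ite_smul, one_smul, zero_smul,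
        Finset.sum_ite_eq', Finset.mem_univ, if_true, sub_self]
    intro m
    have := Fintype.linearIndependent_iff.1 hli _ h1 m
    linear_combination this
  have hentry : ∀ i j k, τ i j k = ∑ m, s i m * τ (b m) j k := by
    intro i j k
    conv_lhs => rw [← hsum i]
    simp [Finset.sum_apply]
  -- elements of the span
  have hstar : ∀ h ∈ Submodule.span ℂ (Set.range τ), ∀ j k, h j k = ∑ m, s j m * h (b m) k := by
    intro h hh
    induction hh using Submodule.span_induction with
    | mem x hx =>
      obtain ⟨i, rfl⟩ := hx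
      intro j k
      rw [hs i j k, hentry j i k]
      refine Finset.sum_congr rfl fun m _ => ?_
      rw [hs (b m) i k]
    | zero => intro j k; simp
    | add x y _ _ hx hy =>
      intro j k
      simp only [Pi.add_apply, mul_add, Finset.sum_add_distrib]
      rw [← hx j k, ← hy j k]
    | smul c x _ hx =>
      intro j k
      simp only [Pi.smul_apply, smul_eq_mul]
      rw [hx j k, Finset.mul_sum]
      exact Finset.sum_congr rfl fun m _ => by ring
  have hSM : Submodule.span ℂ (Set.range τ) ≤ M := by
    rw [Submodule.span_le]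
    rintro _ ⟨i, rfl⟩
    exact hτ i
  have hr3 : r ≤ 3 := by
    by_contra hr
    have h4r : 4 ≤ r := by omega
    exact hM4 (fun i => τ (b (Fin.castLE h4r i))) (fun i => hτ _)
      (hli.comp (Fin.castLE h4r) (Fin.castLE_injective h4r))
  have hr0 : r ≠ 0 := by
    intro hr
    subst hr
    apply h0
    funext i
    rw [← hsum i]
    simp
  rcases Nat.lt_or_ge r 2 with hr2 | hr2
  · -- r = 1
    obtain rfl : r = 1 := by omega
    have hne : τ (b 0) ≠ 0 := hli.ne_zero 0
    have hst := hstar (τ (b 0)) (Submodule.subset_span ⟨_, rfl⟩)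
    have hst' : ∀ j k, τ (b 0) j k = s j 0 * τ (b 0) (b 0) k := by
      intro j k
      have := hst j k
      simpa using this
    refine rank_one hP hq (fun j => s j 0) (τ (b 0) (b 0)) ?_ ?_ ?_
    · intro hz
      have h1 := congrFun hz (b 0)
      simp only [hδ, Pi.zero_apply, if_true, one_ne_zero] at h1
    · intro hz
      apply hne
      funext j k
      rw [hst' j k, hz]
      simp
    · intro b' c'
      exact nl_F_of_InR (hM1 _ (hτ (b 0))) _ _ hst' b' c'
  · -- r = 2, 3
    have h01 : (⟨0, by omega⟩ : Fin r) ≠ ⟨1, by omega⟩ := by simp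
    set h1 := τ (b ⟨0, by omega⟩) with hh1
    set h2 := τ (b ⟨1, by omega⟩) with hh2
    have hpair : ∀ x y : ℂ, x • h1 + y • h2 = 0 → x = 0 ∧ y = 0 := by
      have hp : LinearIndependent ℂ ![h1, h2] := by
        have hinj : Function.Injective ![(⟨0, by omega⟩ : Fin r), ⟨1, by omega⟩] := by
          intro x y hxy
          fin_cases x <;> fin_cases y
          · rfl
          · exact absurd hxy h01
          · exact absurd hxy.symm h01
          · rfl
        have := hli.comp ![(⟨0, by omega⟩ : Fin r), ⟨1, by omega⟩] hinj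
        convert this using 1
        funext i
        fin_cases i <;> rfl
      exact fun x y => LinearIndependent.pair_iff.1 hp x y
    have hnot := hM4 ![h1, h2, fun i j => conj (h1 j i), fun i j => conj (h2 j i)] (by
      intro i
      fin_cases i
      · exact hτ _
      · exact hτ _
      · exact hM2 _ (hτ _)
      · exact hM2 _ (hτ _))
    rw [Fintype.not_linearIndependent_iff] at hnot
    obtain ⟨g, hg, i0, hi0⟩ := hnot
    rw [Fin.sum_univ_four] at hg
    simp only [Matrix.cons_val_zero, Matrix.cons_val_one, Matrix.cons_val] at hg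
    set h := g 0 • h1 + g 1 • h2 with hh
    have hgij : ∀ i j, h i j = - (g 2 * conj (h1 j i) + g 3 * conj (h2 j i)) := by
      intro i j
      have := congrFun (congrFun hg i) j
      simp only [Pi.add_apply, Pi.smul_apply, smul_eq_mul, Pi.zero_apply] at this
      linear_combination this
    have hSt : (fun i j => conj (h j i)) = - (conj (g 2) • h1 + conj (g 3) • h2) := by
      funext i j
      rw [hgij j i]
      simp only [map_neg, map_add, map_mul, Complex.conj_conj, Pi.neg_apply, Pi.add_apply,
        Pi.smul_apply, smul_eq_mul]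
    have hh0 : h ≠ 0 := by
      intro hz
      obtain ⟨k0, k1⟩ := hpair _ _ hz
      have hz2 : conj (g 2) • h1 + conj (g 3) • h2 = 0 := by
        have : (fun i j => conj (h j i)) = (0 : Fin q → Fin q → ℂ) := by
          funext i j
          rw [hz]
          simp
        rw [this] at hSt
        rw [← neg_eq_zero, ← hSt]
      obtain ⟨k2, k3⟩ := hpair _ _ hz2
      rw [map_eq_zero] at k2 k3
      have hall : ∀ i, g i = 0 := by
        intro i
        fin_cases i
        exacts [k0, k1, k2, k3]
      exact hi0 (hall i0)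
    have m1 : h1 ∈ Submodule.span ℂ (Set.range τ) := Submodule.subset_span ⟨_, rfl⟩
    have m2 : h2 ∈ Submodule.span ℂ (Set.range τ) := Submodule.subset_span ⟨_, rfl⟩
    have hmem : h ∈ Submodule.span ℂ (Set.range τ) :=
      Submodule.add_mem _ (Submodule.smul_mem _ _ m1) (Submodule.smul_mem _ _ m2)
    have hmem' : (fun i j => conj (h j i)) ∈ Submodule.span ℂ (Set.range τ) := by
      rw [hSt]
      exact Submodule.neg_mem _ (Submodule.add_mem _ (Submodule.smul_mem _ _ m1)
        (Submodule.smul_mem _ _ m2))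
    have e1 := hstar _ hmem
    have e2 : ∀ j k, h j k = ∑ n, conj (s k n) * h j (b n) := by
      intro j k
      have := congrArg conj (hstar _ hmem' k j)
      simp only [Complex.conj_conj, map_sum, map_mul] at this
      exact this
    have e3 : ∀ j k, ∑ m, ∑ n, h (b m) (b n) * s j m * conj (s k n) = h j k := by
      intro j k
      rw [e1 j k]
      refine Finset.sum_congr rfl fun m _ => ?_
      rw [e2 (b m) k, Finset.mul_sum]
      exact Finset.sum_congr rfl fun n _ => by ring
    have hx := nl_pull hP hr2 hr3 (fun m j => s j m) (by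
      rw [Fintype.linearIndependent_iff]
      intro y hy n
      have := congrFun hy (b n)
      simpa [Finset.sum_apply, hδ] using this) (fun m n => h (b m) (b n)) (by
      have e4 : (fun j k => ∑ m, ∑ n, h (b m) (b n) * s j m * conj (s k n)) = h := by
        funext j k
        exact e3 j k
      show InR P (fun j k => ∑ m, ∑ n, h (b m) (b n) * s j m * conj (s k n))
      rw [e4]
      exact hM1 _ (hSM hmem))
    apply hh0
    funext j k
    rw [← e3 j k]
    have hx' : ∀ m n, h (b m) (b n) = 0 := fun m n => congrFun (congrFun hx m) n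
    simp [hx']

end Pool.Agent.MP_9c903d
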