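import Pool.Agent.Lib.MP_9c903d_ag.NL.LinA

/-!
# Part LinS: symmetry

Proof. Suppose `τ i j k ≠ τ j i k` for some `i, j, k`; fix this `k`, `n := fun i j => τ j i k - τ i j k`
is in `N` and `≠ 0`. So any two elements of `M` are dependent (hNM). Not all `τ i` are `0`; take
`τ i0 ≠ 0`, `h := τ i0`; then `τ i = f i • h` for all `i`. `n i j = f_j h_ik - f_i h_jk`, so
`n = 0` by `nl_dec` (with `a i = h i k`, `b = f`): contradiction.
-/

namespace Pool.Agent.MP_9c903d

open scoped ComplexConjugate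

/-- If there is a relation of type (2,0) and no two relations of type (1,1), then `τ` is
symmetric. -/
theorem nl_symm {q : ℕ} {P : Fin q → Fin q → Fin q → Fin q → ℂ} (hP : IsForm P)
    (N M : Submodule ℂ (Fin q → Fin q → ℂ))
    (hN2 : ∀ n ∈ N, ∀ p r, ∑ i, ∑ j, n i j * P i j p r = 0)
    (hNM : ∀ n ∈ N, n ≠ 0 → ∀ h ∈ M, ∀ h' ∈ M, ¬ LinearIndependent ℂ ![h, h'])
    (τ : Fin q → Fin q → Fin q → ℂ) (hτ : ∀ i, τ i ∈ M)
    (hτN : ∀ k, (fun i j => τ j i k - τ i j k) ∈ N) (i j k : Fin q) : τ i j k = τ j i k := by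
  by_contra hne
  have hn0 : (fun i j => τ j i k - τ i j k) ≠ (0 : Fin q → Fin q → ℂ) := by
    intro h
    have h1 := congrFun (congrFun h i) j
    simp only [Pi.zero_apply] at h1
    exact hne (sub_eq_zero.mp h1).symm
  have hex : ∃ i0, τ i0 ≠ 0 := by
    by_contra hall
    push Not at hall
    apply hne
    rw [hall i, hall j]
    rfl
  obtain ⟨i0, hi0⟩ := hex
  have hdep : ∀ a, ∃ c : ℂ, c • τ i0 = τ a := by
    intro a
    have h1 := hNM _ (hτN k) hn0 (τ i0) (hτ i0) (τ a) (hτ a)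
    rw [LinearIndependent.pair_iff' hi0] at h1
    push Not at h1
    exact h1
  choose f hf using hdep
  apply hn0
  apply nl_dec hP _ (hN2 _ (hτN k)) (fun a => τ i0 a k) f
  intro a b
  have ha : τ a b k = f a * τ i0 b k := by rw [← hf a]; rfl
  have hb : τ b a k = f b * τ i0 a k := by rw [← hf b]; rfl
  simp only [ha, hb]
  ring

end Pool.Agent.MP_9c903d
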