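import Pool.Agent.Lib.MP_9c903d_ag.NL.Defs
import Pool.Agent.Lib.MP_9c903d_ag.NL.LinS
import Pool.Agent.Lib.MP_9c903d_ag.NL.LinB

/-!
# Part Four: four independent relations
-/

namespace Pool.Agent.MP_9c903d

open scoped ComplexConjugate

private theorem Four_add {q : ℕ} (n h n' m g m' : Fin q → Fin q → ℂ) :
    arr (n + m) (h + g) (n' + m') = arr n h n' + arr m g m' := by
  funext a b
  rcases a with a | a <;> rcases b with b | b
  · rfl
  · rfl
  · show -(h b a + g b a) = -h b a + -g b a
    ring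
  · rfl

private theorem Four_smul {q : ℕ} (c : ℂ) (n h n' : Fin q → Fin q → ℂ) :
    arr (c • n) (c • h) (c • n') = c • arr n h n' := by
  funext a b
  rcases a with a | a <;> rcases b with b | b
  · rfl
  · rfl
  · show -(c * h b a) = c * -h b a
    ring
  · rfl

/-- The arrays of type (2,0). -/
private noncomputable def FourN (q : ℕ) :
    (Fin q → Fin q → ℂ) →ₗ[ℂ] (Fin q ⊕ Fin q → Fin q ⊕ Fin q → ℂ) where
  toFun n := arr n 0 0
  map_add' n m := by
    rw [← Four_add, add_zero]
  map_smul' c n := by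
    rw [RingHom.id_apply, ← Four_smul, smul_zero]

/-- The arrays of type (1,1). -/
private noncomputable def FourM (q : ℕ) :
    (Fin q → Fin q → ℂ) →ₗ[ℂ] (Fin q ⊕ Fin q → Fin q ⊕ Fin q → ℂ) where
  toFun h := arr 0 h 0
  map_add' n m := by
    rw [← Four_add, add_zero]
  map_smul' c n := by
    rw [RingHom.id_apply, ← Four_smul, smul_zero]

private theorem Four_bar {q : ℕ} (n h n' : Fin q → Fin q → ℂ) :
    (fun i j : Fin q ⊕ Fin q => conj (arr n h n' i.swap j.swap)) =
      arr (fun i j => conj (n' i j)) (fun i j => - conj (h j i)) (fun i j => conj (n i j)) := by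
  funext a b
  rcases a with a | a <;> rcases b with b | b
  · rfl
  · show conj (-h b a) = -conj (h b a)
    rw [map_neg]
  · show conj (h a b) = - -conj (h a b)
    rw [neg_neg]
  · rfl

/-- Four independent relations. -/
theorem nl_four {q : ℕ} {P : Fin q → Fin q → Fin q → Fin q → ℂ} (hP : IsForm P) (hq : 2 ≤ q)
    (K : Submodule ℂ (Fin q ⊕ Fin q → Fin q ⊕ Fin q → ℂ))
    (hanti : ∀ k ∈ K, ∀ i j, k i j = - k j i)
    (hbar : ∀ k ∈ K, (fun i j => conj (k i.swap j.swap)) ∈ K)
    (hpart : ∀ n h n', arr n h n' ∈ K → arr n 0 0 ∈ K)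
    (hT20 : ∀ n, arr n 0 0 ∈ K → ∀ p r, ∑ i, ∑ j, n i j * P i j p r = 0)
    (hT11 : ∀ h, arr 0 h 0 ∈ K → InR P h)
    (c : Fin q ⊕ Fin q → Fin q ⊕ Fin q → Fin q ⊕ Fin q → ℂ) (hc : c ≠ 0)
    (hK : ∀ a, c a ∈ K) (hj : ∀ i j k, c i j k + c j k i + c k i j = 0) :
    ∃ k : Fin 4 → Fin q ⊕ Fin q → Fin q ⊕ Fin q → ℂ, LinearIndependent ℂ k ∧ ∀ i, k i ∈ K := by
  by_contra hno
  have hno' : ∀ k : Fin 4 → Fin q ⊕ Fin q → Fin q ⊕ Fin q → ℂ, (∀ i, k i ∈ K) →
      ¬ LinearIndependent ℂ k := fun k hk hl => hno ⟨k, hl, hk⟩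
  -- blocks
  have hblk : ∀ k ∈ K, k = arr (fun i j => k (.inl i) (.inl j)) (fun i j => k (.inl i) (.inr j))
      (fun i j => k (.inr i) (.inr j)) := by
    intro k hk
    funext a b
    rcases a with a | a <;> rcases b with b | b
    · rfl
    · rfl
    · exact hanti k hk _ _
    · rfl
  have hbar' : ∀ n h n', arr n h n' ∈ K →
      arr (fun i j => conj (n' i j)) (fun i j => - conj (h j i)) (fun i j => conj (n i j)) ∈ K := by
    intro n h n' hk
    rw [← Four_bar]
    exact hbar _ hk
  have hconj0 : (fun i j : Fin q => - conj ((0 : Fin q → Fin q → ℂ) j i)) = 0 := by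
    funext i j
    show - conj (0 : ℂ) = 0
    rw [map_zero, neg_zero]
  have hconj0' : (fun i j : Fin q => conj ((0 : Fin q → Fin q → ℂ) i j)) = 0 := by
    funext i j
    show conj (0 : ℂ) = 0
    rw [map_zero]
  have hN02 : ∀ n, arr n 0 0 ∈ K → arr 0 0 (fun i j => conj (n i j)) ∈ K := by
    intro n hn
    have h1 := hbar' _ _ _ hn
    rwa [hconj0, hconj0'] at h1
  have hpart' : ∀ n h n', arr n h n' ∈ K → arr 0 0 n' ∈ K := by
    intro n h n' hk
    have h1 := hN02 _ (hpart _ _ _ (hbar' _ _ _ hk))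
    simp only [Complex.conj_conj] at h1
    exact h1
  have hmid : ∀ n h n', arr n h n' ∈ K → arr 0 h 0 ∈ K := by
    intro n h n' hk
    have h1 : arr 0 h 0 = arr n h n' - arr n 0 0 - arr 0 0 n' := by
      funext a b
      rcases a with a | a <;> rcases b with b | b
      · show (0 : ℂ) = n a b - n a b - 0
        ring
      · show h a b = h a b - 0 - 0
        ring
      · show - h b a = - h b a - -0 - -0
        ring
      · show (0 : ℂ) = n' a b - 0 - n' a b
        ring
    rw [h1]
    exact K.sub_mem (K.sub_mem hk (hpart _ _ _ hk)) (hpart' _ _ _ hk)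
  obtain ⟨N, hN⟩ : ∃ N : Submodule ℂ (Fin q → Fin q → ℂ), ∀ n, n ∈ N ↔ arr n 0 0 ∈ K :=
    ⟨K.comap (FourN q), fun n => Iff.rfl⟩
  obtain ⟨M, hM⟩ : ∃ M : Submodule ℂ (Fin q → Fin q → ℂ), ∀ h, h ∈ M ↔ arr 0 h 0 ∈ K :=
    ⟨K.comap (FourM q), fun n => Iff.rfl⟩
  have hN1 : ∀ n ∈ N, ∀ i j, n i j = - n j i := fun n hn i j =>
    hanti _ ((hN n).1 hn) (.inl i) (.inl j)
  have hN2 : ∀ n ∈ N, ∀ p r, ∑ i, ∑ j, n i j * P i j p r = 0 := fun n hn =>
    hT20 n ((hN n).1 hn)
  have hM1 : ∀ h ∈ M, InR P h := fun h hh => hT11 h ((hM h).1 hh)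
  have hM2 : ∀ h ∈ M, (fun i j => conj (h j i)) ∈ M := by
    intro h hh
    have h1 := hbar' _ _ _ ((hM h).1 hh)
    rw [hconj0'] at h1
    have h2 : (fun i j => - conj (h j i)) ∈ M := (hM _).2 h1
    have h3 : (fun i j => conj (h j i)) = - (fun i j => - conj (h j i)) := by
      funext i j
      show conj (h j i) = - -conj (h j i)
      rw [neg_neg]
    rw [h3]
    exact M.neg_mem h2
  have hM4 : ∀ h : Fin 4 → Fin q → Fin q → ℂ, (∀ i, h i ∈ M) → ¬ LinearIndependent ℂ h := by
    intro h hh hl
    refine hno' (fun i => arr 0 (h i) 0) (fun i => (hM _).1 (hh i)) ?_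
    rw [Fintype.linearIndependent_iff] at hl ⊢
    intro g hg
    refine hl g ?_
    funext a b
    have h1 := congrFun (congrFun hg (.inl a)) (.inr b)
    simp only [Finset.sum_apply, Pi.smul_apply, Pi.zero_apply] at h1 ⊢
    exact h1
  have hN3 : ∀ n ∈ N, ∀ n' ∈ N, ¬ LinearIndependent ℂ ![n, n'] := by
    intro n1 h1 n2 h2 hl
    refine hno' ![arr n1 0 0, arr n2 0 0, arr 0 0 (fun i j => conj (n1 i j)),
      arr 0 0 (fun i j => conj (n2 i j))] ?_ ?_
    · intro i
      fin_cases i
      · exact (hN _).1 h1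
      · exact (hN _).1 h2
      · exact hN02 _ ((hN _).1 h1)
      · exact hN02 _ ((hN _).1 h2)
    · rw [LinearIndependent.pair_iff] at hl
      rw [Fintype.linearIndependent_iff]
      intro g hg
      simp only [Fin.sum_univ_four, Matrix.cons_val_zero, Matrix.cons_val_one, Matrix.cons_val] at hg
      have e1 : g 0 • n1 + g 1 • n2 = 0 := by
        funext a b
        have h3 := congrFun (congrFun hg (.inl a)) (.inl b)
        simp only [Pi.add_apply, Pi.smul_apply, Pi.zero_apply, smul_eq_mul] at h3 ⊢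
        have h4 : arr n1 0 0 (.inl a) (.inl b) = n1 a b := rfl
        have h5 : arr n2 0 0 (.inl a) (.inl b) = n2 a b := rfl
        have h6 : arr 0 0 (fun i j => conj (n1 i j)) (.inl a) (.inl b) = 0 := rfl
        have h7 : arr 0 0 (fun i j => conj (n2 i j)) (.inl a) (.inl b) = 0 := rfl
        rw [h4, h5, h6, h7] at h3
        linear_combination h3
      have e2 : conj (g 2) • n1 + conj (g 3) • n2 = 0 := by
        funext a b
        have h3 := congrFun (congrFun hg (.inr a)) (.inr b)
        simp only [Pi.add_apply, Pi.smul_apply, Pi.zero_apply, smul_eq_mul] at h3 ⊢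
        have h4 : arr n1 0 0 (.inr a) (.inr b) = 0 := rfl
        have h5 : arr n2 0 0 (.inr a) (.inr b) = 0 := rfl
        have h6 : arr 0 0 (fun i j => conj (n1 i j)) (.inr a) (.inr b) = conj (n1 a b) := rfl
        have h7 : arr 0 0 (fun i j => conj (n2 i j)) (.inr a) (.inr b) = conj (n2 a b) := rfl
        rw [h4, h5, h6, h7] at h3
        have h8 := congrArg conj h3
        simp only [map_add, map_mul, Complex.conj_conj, map_zero] at h8
        linear_combination h8
      obtain ⟨g0, g1⟩ := hl _ _ e1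
      obtain ⟨g2, g3⟩ := hl _ _ e2
      rw [map_eq_zero] at g2 g3
      intro i
      fin_cases i
      exacts [g0, g1, g2, g3]
  have hNM : ∀ n ∈ N, n ≠ 0 → ∀ h ∈ M, ∀ h' ∈ M, ¬ LinearIndependent ℂ ![h, h'] := by
    intro n h1 hn0 h hh h' hh' hl
    refine hno' ![arr n 0 0, arr 0 0 (fun i j => conj (n i j)), arr 0 h 0, arr 0 h' 0] ?_ ?_
    · intro i
      fin_cases i
      · exact (hN _).1 h1
      · exact hN02 _ ((hN _).1 h1)
      · exact (hM _).1 hh
      · exact (hM _).1 hh'
    · rw [LinearIndependent.pair_iff] at hl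
      rw [Fintype.linearIndependent_iff]
      intro g hg
      simp only [Fin.sum_univ_four, Matrix.cons_val_zero, Matrix.cons_val_one, Matrix.cons_val] at hg
      have e1 : g 0 • n = 0 := by
        funext a b
        have h3 := congrFun (congrFun hg (.inl a)) (.inl b)
        simp only [Pi.add_apply, Pi.smul_apply, Pi.zero_apply, smul_eq_mul] at h3 ⊢
        have h4 : arr n 0 0 (.inl a) (.inl b) = n a b := rfl
        have h5 : arr 0 0 (fun i j => conj (n i j)) (.inl a) (.inl b) = 0 := rfl
        have h6 : arr 0 h 0 (.inl a) (.inl b) = 0 := rfl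
        have h7 : arr 0 h' 0 (.inl a) (.inl b) = 0 := rfl
        rw [h4, h5, h6, h7] at h3
        linear_combination h3
      have e2 : conj (g 1) • n = 0 := by
        funext a b
        have h3 := congrFun (congrFun hg (.inr a)) (.inr b)
        simp only [Pi.add_apply, Pi.smul_apply, Pi.zero_apply, smul_eq_mul] at h3 ⊢
        have h4 : arr n 0 0 (.inr a) (.inr b) = 0 := rfl
        have h5 : arr 0 0 (fun i j => conj (n i j)) (.inr a) (.inr b) = conj (n a b) := rfl
        have h6 : arr 0 h 0 (.inr a) (.inr b) = 0 := rfl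
        have h7 : arr 0 h' 0 (.inr a) (.inr b) = 0 := rfl
        rw [h4, h5, h6, h7] at h3
        have h8 := congrArg conj h3
        simp only [map_add, map_mul, Complex.conj_conj, map_zero] at h8
        linear_combination h8
      have e3 : g 2 • h + g 3 • h' = 0 := by
        funext a b
        have h3 := congrFun (congrFun hg (.inl a)) (.inr b)
        simp only [Pi.add_apply, Pi.smul_apply, Pi.zero_apply, smul_eq_mul] at h3 ⊢
        have h4 : arr n 0 0 (.inl a) (.inr b) = 0 := rfl
        have h5 : arr 0 0 (fun i j => conj (n i j)) (.inl a) (.inr b) = 0 := rfl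
        have h6 : arr 0 h 0 (.inl a) (.inr b) = h a b := rfl
        have h7 : arr 0 h' 0 (.inl a) (.inr b) = h' a b := rfl
        rw [h4, h5, h6, h7] at h3
        linear_combination h3
      have g0 : g 0 = 0 := (smul_eq_zero.1 e1).resolve_right hn0
      have g1 : conj (g 1) = 0 := (smul_eq_zero.1 e2).resolve_right hn0
      rw [map_eq_zero] at g1
      obtain ⟨g2, g3⟩ := hl _ _ e3
      intro i
      fin_cases i
      exacts [g0, g1, g2, g3]
  -- the two blocks
  have core : ∀ c : Fin q ⊕ Fin q → Fin q ⊕ Fin q → Fin q ⊕ Fin q → ℂ, (∀ a, c a ∈ K) →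
      (∀ i j k, c i j k + c j k i + c k i j = 0) →
      (∀ i j k, c (.inl i) (.inl j) (.inl k) = 0) ∧
        (∀ i j k, c (.inl i) (.inl j) (.inr k) = 0) := by
    intro c hK hj
    have hmem20 : ∀ a, (fun i j => c a (.inl i) (.inl j)) ∈ N := by
      intro a
      have h1 := hK a
      rw [hblk _ h1] at h1
      exact (hN _).2 (hpart _ _ _ h1)
    have hmem11 : ∀ a, (fun i j => c a (.inl i) (.inr j)) ∈ M := by
      intro a
      have h1 := hK a
      rw [hblk _ h1] at h1
      exact (hM _).2 (hmid _ _ _ h1)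
    constructor
    · have h := nl_lin30 hP N hN1 hN2 hN3 (fun i j k => c (.inl i) (.inl j) (.inl k))
        (fun i => hmem20 (.inl i)) (fun i j k => hj _ _ _)
      intro i j k
      exact congrFun (congrFun (congrFun h i) j) k
    · have hτN : ∀ k, (fun i j => (fun i j k => c (.inl i) (.inl j) (.inr k)) j i k -
          (fun i j k => c (.inl i) (.inl j) (.inr k)) i j k) ∈ N := by
        intro k
        have h1 : (fun i j => (fun i j k => c (.inl i) (.inl j) (.inr k)) j i k -
            (fun i j k => c (.inl i) (.inl j) (.inr k)) i j k) =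
            fun i j => c (.inr k) (.inl i) (.inl j) := by
          funext i j
          show c (.inl j) (.inl i) (.inr k) - c (.inl i) (.inl j) (.inr k) =
            c (.inr k) (.inl i) (.inl j)
          have h2 := hj (.inl i) (.inl j) (.inr k)
          have h3 := hanti _ (hK (.inl j)) (.inr k) (.inl i)
          linear_combination h3 - h2
        rw [h1]
        exact hmem20 (.inr k)
      have hs := nl_symm hP N M hN2 hNM (fun i j k => c (.inl i) (.inl j) (.inr k))
        (fun i => hmem11 (.inl i)) hτN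
      have h := nl_lin21 hP hq M hM1 hM2 hM4 (fun i j k => c (.inl i) (.inl j) (.inr k))
        (fun i => hmem11 (.inl i)) hs
      intro i j k
      exact congrFun (congrFun (congrFun h i) j) k
  obtain ⟨k1, k2⟩ := core c hK hj
  obtain ⟨k3, k4⟩ := core (fun a b d => conj (c a.swap b.swap d.swap))
    (fun a => hbar _ (hK a.swap)) (fun i j k => by
      rw [← map_add, ← map_add, hj, map_zero])
  have hca : ∀ i j k, c i j k = - c i k j := fun i j k => hanti _ (hK i) j k
  have k3' : ∀ i j k, c (.inr i) (.inr j) (.inr k) = 0 := fun i j k =>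
    (map_eq_zero (starRingEnd ℂ)).1 (k3 i j k)
  have k4' : ∀ i j k, c (.inr i) (.inr j) (.inl k) = 0 := fun i j k =>
    (map_eq_zero (starRingEnd ℂ)).1 (k4 i j k)
  have k5 : ∀ i j k, c (.inl i) (.inr j) (.inl k) = 0 := fun i j k => by
    rw [hca, k2, neg_zero]
  have k6 : ∀ i j k, c (.inr i) (.inl j) (.inr k) = 0 := fun i j k => by
    rw [hca, k4', neg_zero]
  have k7 : ∀ i j k, c (.inr i) (.inl j) (.inl k) = 0 := fun i j k => by
    have := hj (.inr i) (.inl j) (.inl k)
    rw [k2, k5, add_zero, add_zero] at this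
    exact this
  have k8 : ∀ i j k, c (.inl i) (.inr j) (.inr k) = 0 := fun i j k => by
    have := hj (.inl i) (.inr j) (.inr k)
    rw [k4', k6, add_zero, add_zero] at this
    exact this
  apply hc
  funext a b d
  rcases a with a | a <;> rcases b with b | b <;> rcases d with d | d
  · exact k1 _ _ _
  · exact k2 _ _ _
  · exact k5 _ _ _
  · exact k8 _ _ _
  · exact k7 _ _ _
  · exact k6 _ _ _
  · exact k4' _ _ _
  · exact k3' _ _ _

end Pool.Agent.MP_9c903d
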