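import Pool.Agent.Lib.MP_9c903d_ag.NL.Defs
import Pool.Agent.Lib.MP_9c903d_ag.NK.Coord

/-!
# Part Hom: relations between classes of degree one give homomorphisms `γ_2 / γ_3 → ℂ`
-/

namespace Pool.Agent.MP_9c903d

open scoped ComplexConjugate commutatorElement

/-- homomorphisms to `ℂ` vanish on `γ_2` -/
private theorem Hom_kill {G : Type*} [Group G] (φ : H1 G) (x : G)
    (hx : x ∈ (⊤ : Subgroup G).lowerCentralSeries 1) : φ (.ofMul x) = 0 := by
  rw [Subgroup.mem_lowerCentralSeries_succ_iff] at hx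
  induction hx using Subgroup.closure_induction with
  | mem x hx =>
    obtain ⟨p, _, q, _, rfl⟩ := hx
    rw [commutatorElement_def]
    simp only [ofMul_mul, ofMul_inv, map_add, map_neg]
    ring
  | one => exact map_zero φ
  | mul x y _ _ hx hy => rw [ofMul_mul, map_add, hx, hy, add_zero]
  | inv x _ hx => rw [ofMul_inv, map_neg, hx, neg_zero]

theorem nl_homs {G : Type*} [Group G] {I : Type*} [Fintype I] (ε : Module.Basis I ℂ (H1 G)) {r : ℕ}
    (k : Fin r → I → I → ℂ) (hk : LinearIndependent ℂ k) (hK : ∀ m, InK ε (k m)) :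
    ∃ l : Fin r → (Additive ((⊤ : Subgroup G).lowerCentralSeries 1) →+ ℂ),
      LinearIndependent ℂ l ∧ ∀ m, ∀ x : (⊤ : Subgroup G).lowerCentralSeries 1,
        (x : G) ∈ (⊤ : Subgroup G).lowerCentralSeries 2 → l m (.ofMul x) = 0 := by
  have hK' : ∀ m, ∃ c : G → ℂ, ∀ g h : G,
      ∑ i, ∑ j, k m i j * ε i (.ofMul g) * ε j (.ofMul h) = c (g * h) - c g - c h :=
    fun m => (hK m).2
  choose c hc using hK'
  -- memberships
  have m1 : ∀ h l : G, ⁅h, l⁆ ∈ (⊤ : Subgroup G).lowerCentralSeries 1 := fun h l =>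
    Subgroup.commutator_mem_commutator (Subgroup.mem_top h) (Subgroup.mem_top l)
  -- the form vanishes on `γ_2`
  have hB0 : ∀ m, ∀ x ∈ (⊤ : Subgroup G).lowerCentralSeries 1, ∀ h : G,
      c m (x * h) = c m x + c m h := by
    intro m x hx h
    have h1 := hc m x h
    have h2 : ∑ i, ∑ j, k m i j * ε i (.ofMul x) * ε j (.ofMul h) = 0 := by
      refine Finset.sum_eq_zero fun i _ => Finset.sum_eq_zero fun j _ => ?_
      rw [Hom_kill (ε i) x hx]
      ring
    rw [h2] at h1
    linear_combination -h1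
  have hone : ∀ m, c m 1 = 0 := by
    intro m
    have := hB0 m 1 (Subgroup.one_mem _) 1
    rw [mul_one] at this
    linear_combination -this
  have hanti : ∀ m, ∀ g h : G, ∑ i, ∑ j, k m i j * ε i (.ofMul h) * ε j (.ofMul g) =
      - ∑ i, ∑ j, k m i j * ε i (.ofMul g) * ε j (.ofMul h) := by
    intro m g h
    rw [Finset.sum_comm, ← Finset.sum_neg_distrib]
    refine Finset.sum_congr rfl fun i _ => ?_
    rw [← Finset.sum_neg_distrib]
    refine Finset.sum_congr rfl fun j _ => ?_
    rw [(hK m).1 j i]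
    ring
  have hcomm : ∀ m, ∀ g h : G, c m ⁅g, h⁆ =
      2 * ∑ i, ∑ j, k m i j * ε i (.ofMul g) * ε j (.ofMul h) := by
    intro m g h
    have h1 := hB0 m ⁅g, h⁆ (m1 g h) (h * g)
    have e : ⁅g, h⁆ * (h * g) = g * h := by rw [commutatorElement_def]; group
    rw [e] at h1
    have h2 := hc m g h
    have h3 := hc m h g
    rw [hanti m g h] at h3
    linear_combination -h1 - h2 + h3
  have hinv : ∀ m, ∀ x ∈ (⊤ : Subgroup G).lowerCentralSeries 1, c m x⁻¹ = - c m x := by
    intro m x hx
    have := hB0 m x hx x⁻¹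
    rw [mul_inv_cancel, hone] at this
    linear_combination -this
  refine ⟨fun m => AddMonoidHom.mk' (fun x => c m ((Additive.toMul x :
    (⊤ : Subgroup G).lowerCentralSeries 1) : G)) ?_, ?_, ?_⟩
  · intro x y
    show c m ((x.toMul : G) * (y.toMul : G)) = _
    rw [hB0 m _ x.toMul.2]
  · rw [Fintype.linearIndependent_iff]
    intro s hs
    have h1 : ∀ g h : G, ∑ m, s m * ∑ i, ∑ j, k m i j * ε i (.ofMul g) * ε j (.ofMul h) = 0 := by
      intro g h
      have h2 := DFunLike.congr_fun hs (Additive.ofMul (⟨⁅g, h⁆, m1 g h⟩ :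
        (⊤ : Subgroup G).lowerCentralSeries 1))
      rw [AddMonoidHom.finsetSum_apply] at h2
      have h3 : ∑ m, s m * c m ⁅g, h⁆ = 0 := h2
      have h4 : ∑ m, s m * c m ⁅g, h⁆ =
          2 * ∑ m, s m * ∑ i, ∑ j, k m i j * ε i (.ofMul g) * ε j (.ofMul h) := by
        rw [Finset.mul_sum]
        refine Finset.sum_congr rfl fun m _ => ?_
        rw [hcomm]
        ring
      rw [h4] at h3
      exact (mul_eq_zero.1 h3).resolve_left two_ne_zero
    have h5 : ∀ g h : G, ∑ i, (∑ j, (∑ m, s m * k m i j) * ε j (.ofMul h)) * ε i (.ofMul g) = 0 := by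
      intro g h
      rw [← h1 g h]
      have e1 : ∀ m, s m * ∑ i, ∑ j, k m i j * ε i (.ofMul g) * ε j (.ofMul h) =
          ∑ i, ∑ j, s m * k m i j * ε j (.ofMul h) * ε i (.ofMul g) := by
        intro m
        rw [Finset.mul_sum]
        refine Finset.sum_congr rfl fun i _ => ?_
        rw [Finset.mul_sum]
        refine Finset.sum_congr rfl fun j _ => ?_
        ring
      rw [Finset.sum_congr rfl fun m _ => e1 m, Finset.sum_comm]
      refine Finset.sum_congr rfl fun i _ => ?_
      rw [Finset.sum_comm, Finset.sum_mul]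
      refine Finset.sum_congr rfl fun j _ => ?_
      rw [Finset.sum_mul, Finset.sum_mul]
    have h6 : ∀ i j, ∑ m, s m * k m i j = 0 := by
      intro i j
      have h7 : ∀ h : G, ∑ j, (∑ m, s m * k m i j) * ε j (.ofMul h) = 0 := fun h =>
        congrFun (coeff_zero ε _ fun g => h5 g h) i
      exact congrFun (coeff_zero ε (fun j => ∑ m, s m * k m i j) h7) j
    have h8 : ∑ m, s m • k m = 0 := by
      funext i j
      rw [Finset.sum_apply, Finset.sum_apply]
      simpa using h6 i j
    exact Fintype.linearIndependent_iff.1 hk s h8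
  · intro m x hx
    show c m (x : G) = 0
    have hx' := hx
    rw [Subgroup.mem_lowerCentralSeries_succ_iff] at hx'
    have key : (x : G) ∈ (⊤ : Subgroup G).lowerCentralSeries 1 ∧ c m (x : G) = 0 := by
      clear hx
      generalize (x : G) = y at hx' ⊢
      induction hx' using Subgroup.closure_induction with
      | mem x hx =>
        obtain ⟨p, hp, q, _, rfl⟩ := hx
        refine ⟨m1 p q, ?_⟩
        have := hcomm m p q
        rw [this]
        have h2 : ∑ i, ∑ j, k m i j * ε i (.ofMul p) * ε j (.ofMul q) = 0 := by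
          refine Finset.sum_eq_zero fun i _ => Finset.sum_eq_zero fun j _ => ?_
          rw [Hom_kill (ε i) p hp]
          ring
        rw [h2, mul_zero]
      | one => exact ⟨Subgroup.one_mem _, hone m⟩
      | mul x y _ _ hx hy =>
        exact ⟨Subgroup.mul_mem _ hx.1 hy.1, by rw [hB0 m _ hx.1, hx.2, hy.2, add_zero]⟩
      | inv x _ hx => exact ⟨Subgroup.inv_mem _ hx.1, by rw [hinv m _ hx.1, hx.2, neg_zero]⟩
    exact key.2

end Pool.Agent.MP_9c903d
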