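import Pool.Agent.Lib.MP_9c903d_ag.NK.Defs

/-!
# Part LinA: the relations of type (2,0)
-/

namespace Pool.Agent.MP_9c903d

open scoped ComplexConjugate

private theorem lina_dec {q : ℕ} {P : Fin q → Fin q → Fin q → Fin q → ℂ} (hP : IsForm P)
    {a b : Fin q → ℂ} (h : ∀ c d, ∑ i, ∑ j, a i * b j * P i j c d = 0) (i j : Fin q) :
    a i * b j = a j * b i := by
  by_cases hl : LinearIndependent ℂ ![a, b]
  · exfalso
    have h1 := hP.pos a b hl
    have h2 : F P a b (star a) (star b) = 0 := by
      have e1 : F P a b (star a) (star b) =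
          ∑ k, ∑ l, (star a) k * (star b) l * ∑ i, ∑ j, a i * b j * P i j k l := by
        unfold F
        calc ∑ i, ∑ j, ∑ k, ∑ l, a i * b j * (star a) k * (star b) l * P i j k l
            = ∑ i, ∑ k, ∑ j, ∑ l, a i * b j * (star a) k * (star b) l * P i j k l :=
              Finset.sum_congr rfl fun i _ => Finset.sum_comm
          _ = ∑ k, ∑ i, ∑ j, ∑ l, a i * b j * (star a) k * (star b) l * P i j k l :=
              Finset.sum_comm
          _ = ∑ k, ∑ i, ∑ l, ∑ j, a i * b j * (star a) k * (star b) l * P i j k l :=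
              Finset.sum_congr rfl fun k _ => Finset.sum_congr rfl fun i _ => Finset.sum_comm
          _ = ∑ k, ∑ l, ∑ i, ∑ j, a i * b j * (star a) k * (star b) l * P i j k l :=
              Finset.sum_congr rfl fun k _ => Finset.sum_comm
          _ = _ := by
              refine Finset.sum_congr rfl fun k _ => Finset.sum_congr rfl fun l _ => ?_
              rw [Finset.mul_sum]
              refine Finset.sum_congr rfl fun i _ => ?_
              rw [Finset.mul_sum]
              refine Finset.sum_congr rfl fun j _ => ?_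
              ring
      rw [e1]
      refine Finset.sum_eq_zero fun k _ => Finset.sum_eq_zero fun l _ => ?_
      rw [h k l, mul_zero]
    rw [h2] at h1
    simp at h1
  · rw [LinearIndependent.pair_iff] at hl
    push Not at hl
    obtain ⟨s, t, hst, hne⟩ := hl
    have hi := congrFun hst i
    have hj := congrFun hst j
    simp only [Pi.add_apply, Pi.smul_apply, smul_eq_mul, Pi.zero_apply] at hi hj
    by_cases hs : s = 0
    · have ht := hne hs
      rw [hs, zero_mul, zero_add] at hi hj
      have hbi := (mul_eq_zero.1 hi).resolve_left ht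
      have hbj := (mul_eq_zero.1 hj).resolve_left ht
      rw [hbi, hbj, mul_zero, mul_zero]
    · apply mul_left_cancel₀ hs
      linear_combination b j * hi - b i * hj

/-- A relation `∑ n_ij e_i ∧ e_j = 0` with decomposable `n = a ∧ b` is trivial. -/
theorem nl_dec {q : ℕ} {P : Fin q → Fin q → Fin q → Fin q → ℂ} (hP : IsForm P)
    (n : Fin q → Fin q → ℂ) (hn : ∀ p r, ∑ i, ∑ j, n i j * P i j p r = 0) (a b : Fin q → ℂ)
    (hab : ∀ i j, n i j = a i * b j - a j * b i) : n = 0 := by
  have h1 : ∀ c d, ∑ i, ∑ j, a i * b j * P i j c d = 0 := by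
    intro c d
    have e1 : ∑ i, ∑ j, a j * b i * P i j c d = - ∑ i, ∑ j, a i * b j * P i j c d := by
      rw [Finset.sum_comm, ← Finset.sum_neg_distrib]
      refine Finset.sum_congr rfl fun i _ => ?_
      rw [← Finset.sum_neg_distrib]
      refine Finset.sum_congr rfl fun j _ => ?_
      rw [hP.alt1 i j c d]
      ring
    have e2 : ∑ i, ∑ j, n i j * P i j c d
        = ∑ i, ∑ j, a i * b j * P i j c d - ∑ i, ∑ j, a j * b i * P i j c d := by
      rw [← Finset.sum_sub_distrib]
      refine Finset.sum_congr rfl fun i _ => ?_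
      rw [← Finset.sum_sub_distrib]
      refine Finset.sum_congr rfl fun j _ => ?_
      rw [hab i j]
      ring
    have e3 := hn c d
    rw [e2, e1] at e3
    linear_combination (1 / 2 : ℂ) * e3
  funext i j
  rw [hab i j, lina_dec hP h1 i j, sub_self]
  rfl

theorem nl_lin30 {q : ℕ} {P : Fin q → Fin q → Fin q → Fin q → ℂ} (hP : IsForm P)
    (N : Submodule ℂ (Fin q → Fin q → ℂ)) (hN1 : ∀ n ∈ N, ∀ i j, n i j = - n j i)
    (hN2 : ∀ n ∈ N, ∀ p r, ∑ i, ∑ j, n i j * P i j p r = 0)
    (hN3 : ∀ n ∈ N, ∀ n' ∈ N, ¬ LinearIndependent ℂ ![n, n'])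
    (σ : Fin q → Fin q → Fin q → ℂ) (hσ : ∀ i, σ i ∈ N)
    (hJ : ∀ i j k, σ i j k + σ j k i + σ k i j = 0) : σ = 0 := by
  by_contra hne
  obtain ⟨i0, hi0⟩ : ∃ i0, σ i0 ≠ 0 := by
    by_contra hcon
    push Not at hcon
    exact hne (funext hcon)
  have hf : ∀ i, ∃ f : ℂ, ∀ a b, σ i a b = f * σ i0 a b := by
    intro i
    have h1 := hN3 (σ i0) (hσ i0) (σ i) (hσ i)
    rw [LinearIndependent.pair_iff] at h1
    push Not at h1
    obtain ⟨s, t, hst, hst2⟩ := h1
    have ht : t ≠ 0 := by
      intro ht
      rw [ht, zero_smul, add_zero] at hst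
      rcases smul_eq_zero.1 hst with h | h
      · exact hst2 h ht
      · exact hi0 h
    refine ⟨-s / t, fun a b => ?_⟩
    have h2 := congrFun (congrFun hst a) b
    simp only [Pi.add_apply, Pi.smul_apply, smul_eq_mul, Pi.zero_apply] at h2
    field_simp
    linear_combination h2
  choose f hf using hf
  have hf0 : f i0 = 1 := by
    obtain ⟨a, ha⟩ : ∃ a, σ i0 a ≠ 0 := by
      by_contra hcon
      push Not at hcon
      exact hi0 (funext hcon)
    obtain ⟨b, hb⟩ : ∃ b, σ i0 a b ≠ 0 := by
      by_contra hcon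
      push Not at hcon
      exact ha (funext hcon)
    have h1 := hf i0 a b
    apply mul_right_cancel₀ hb
    rw [one_mul]
    exact h1.symm
  apply hi0
  refine nl_dec hP (σ i0) (hN2 _ (hσ i0)) f (σ i0 i0) fun j k => ?_
  have h1 := hJ i0 j k
  rw [hf j k i0, hf k i0 j] at h1
  have h2 := hN1 _ (hσ i0) k i0
  linear_combination h1 - f j * h2

end Pool.Agent.MP_9c903d
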