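import Pool.Agent.Lib.MP_9c903d_ag.NL.Defs

/-!
# Part RelB: the component of type (2,0) of a relation

Proof. Let `k = arr n h n'` and index the pairs `(i,j)` of `Fin q ⊕ Fin q` by `Fin N`. The relation is
`∑ φ_ij ∪ ψ_ij = 0` with `φ_ij = k_ij • ε_i`, `ψ_ij = ε_j` (CupZero with the given function). Write
`φ_ij = a + cj b`: `i = inl`: `a = k_ij • ε_i`, `b = 0`; `i = inr i'`: `a = 0`,
`b = conj (k_ij) • ε (inl i')`. `ψ_ij = c + cj d`: `j = inl`: `c = ε_j`, `d = 0`; `j = inr j'`: `c = 0`,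
`d = ε (inl j')`. `D.part` gives CupZero a c, that is `∑ n_ij ε_i(g) ε_j(h)` (both inl) is the
coboundary of a function; this is `InK ε (arr n 0 0)` (antisymmetry of `n` from that of `arr n h n'`).
-/

namespace Pool.Agent.MP_9c903d

open scoped ComplexConjugate commutatorElement

/-- The component in `V` of `z • ε i`. -/
private noncomputable def pa {G : Type*} [Group G] {q : ℕ} (ε : Fin q ⊕ Fin q → H1 G) (z : ℂ) :
    Fin q ⊕ Fin q → H1 G
  | .inl i => z • ε (.inl i)
  | .inr _ => 0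

/-- The element of `V` whose conjugate is the component in `conj V` of `z • ε i`. -/
private noncomputable def pb {G : Type*} [Group G] {q : ℕ} (ε : Fin q ⊕ Fin q → H1 G) (z : ℂ) :
    Fin q ⊕ Fin q → H1 G
  | .inl _ => 0
  | .inr i => (conj z) • ε (.inl i)

private theorem cj_zero' {G : Type*} [Group G] : cj (0 : H1 G) = 0 := by
  ext x
  simp [cj]

private theorem cj_smul' {G : Type*} [Group G] (z : ℂ) (φ : H1 G) :
    cj (z • φ) = (conj z) • cj φ := by
  ext x
  simp [cj]

private theorem pa_add {G : Type*} [Group G] {q : ℕ} (ε : Fin q ⊕ Fin q → H1 G)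
    (h2 : ∀ i, ε (Sum.inr i) = cj (ε (Sum.inl i))) (z : ℂ) (i : Fin q ⊕ Fin q) :
    pa ε z i + cj (pb ε z i) = z • ε i := by
  rcases i with i | i
  · change z • ε (.inl i) + cj (0 : H1 G) = z • ε (.inl i)
    rw [cj_zero', add_zero]
  · change (0 : H1 G) + cj ((conj z) • ε (.inl i)) = z • ε (.inr i)
    rw [cj_smul', Complex.conj_conj, zero_add, h2]

theorem nl_rel_part {G : Type*} [Group G] (D : HodgeTypeData G) {q : ℕ}
    (ε : Fin q ⊕ Fin q → H1 G) (h1 : ∀ i, ε (Sum.inl i) ∈ D.V)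
    (h2 : ∀ i, ε (Sum.inr i) = cj (ε (Sum.inl i))) (n h n' : Fin q → Fin q → ℂ)
    (hk : InK ε (arr n h n')) : InK ε (arr n 0 0) := by
  obtain ⟨halt, c0, hc0⟩ := hk
  refine ⟨?_, ?_⟩
  · rintro (i | i) (j | j)
    · exact halt (.inl i) (.inl j)
    · change (0 : ℂ) = - (- 0)
      simp
    · change - (0 : ℂ) = - 0
      rfl
    · change (0 : ℂ) = - 0
      simp
  · have hpa : ∀ (z : ℂ) (i : Fin q ⊕ Fin q), pa ε z i ∈ D.V := by
      rintro z (i | i)
      · exact D.V.smul_mem _ (h1 i)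
      · exact D.V.zero_mem
    have hpb : ∀ (z : ℂ) (i : Fin q ⊕ Fin q), pb ε z i ∈ D.V := by
      rintro z (i | i)
      · exact D.V.zero_mem
      · exact D.V.smul_mem _ (h1 i)
    let e := (Fintype.equivFin ((Fin q ⊕ Fin q) × (Fin q ⊕ Fin q))).symm
    have key := D.part _ (fun m => pa ε (arr n h n' (e m).1 (e m).2) (e m).1)
      (fun m => pb ε (arr n h n' (e m).1 (e m).2) (e m).1)
      (fun m => pa ε 1 (e m).2) (fun m => pb ε 1 (e m).2)
      (fun m => hpa _ _) (fun m => hpb _ _) (fun m => hpa _ _) (fun m => hpb _ _) ?_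
    · obtain ⟨c1, hc1⟩ := key
      refine ⟨c1, fun g g' => ?_⟩
      rw [← hc1 g g']
      rw [← Fintype.sum_prod_type' (f := fun i j =>
        arr n 0 0 i j * ε i (.ofMul g) * ε j (.ofMul g'))]
      rw [← Equiv.sum_comp e]
      refine Finset.sum_congr rfl fun m _ => ?_
      beta_reduce
      generalize e m = p
      rcases p with ⟨i | i, j | j⟩
      · change n i j * ε (.inl i) (.ofMul g) * ε (.inl j) (.ofMul g') =
          (n i j • ε (.inl i)) (.ofMul g) * ((1 : ℂ) • ε (.inl j)) (.ofMul g')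
        rw [one_smul, AddMonoidHom.smul_apply, smul_eq_mul]
      · change (0 : ℂ) * ε (.inl i) (.ofMul g) * ε (.inr j) (.ofMul g') =
          (h i j • ε (.inl i)) (.ofMul g) * (0 : H1 G) (.ofMul g')
        simp
      · change - (0 : ℂ) * ε (.inr i) (.ofMul g) * ε (.inl j) (.ofMul g') =
          (0 : H1 G) (.ofMul g) * ((1 : ℂ) • ε (.inl j)) (.ofMul g')
        simp
      · change (0 : ℂ) * ε (.inr i) (.ofMul g) * ε (.inr j) (.ofMul g') =
          (0 : H1 G) (.ofMul g) * (0 : H1 G) (.ofMul g')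
        simp
    · refine ⟨c0, fun g g' => ?_⟩
      rw [← hc0 g g']
      rw [← Fintype.sum_prod_type' (f := fun i j =>
        arr n h n' i j * ε i (.ofMul g) * ε j (.ofMul g'))]
      rw [← Equiv.sum_comp e]
      refine Finset.sum_congr rfl fun m _ => ?_
      simp only [pa_add ε h2]
      rw [one_smul, AddMonoidHom.smul_apply, smul_eq_mul]

end Pool.Agent.MP_9c903d
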