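import Pool.Agent.Lib.MP_9c903d_ag.NL.RelA
import Pool.Agent.Lib.MP_9c903d_ag.NL.RelB
import Pool.Agent.Lib.MP_9c903d_ag.NL.Hom
import Pool.Agent.Lib.MP_9c903d_ag.NL.Four
import Pool.Agent.Lib.MP_9c903d_ag.NK.Fin

/-!
# Part Main: assembly

Proof. As `main` of NK/Fin.lean: `exists_basis`, `exists_theta`, `exists_trilinear`,
`trilinear_coord` give `q`, `ε`, `t`, `c`; `c ≠ 0` as `t ≠ 0`. `q ≥ 5` by `main` (10 ≤ b_1), so `2 ≤ q`.
`K := Ksub ε`; `c a ∈ K` by `nl_slice` (for each `g` the array `∑ i, c i j k * ε i g` is antisymmetric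
and a relation by ht5). `hP := isForm ...`. hbar: `nl_rel_bar`; hpart: `nl_rel_part`; hT20, hT11 from
`nl_rel_T` (with `(x, y) = (ε (inr p), ε (inr r))`, `(ε (inl b), ε (inr c))`; `Fintype.sum_sum_type`,
`arr`, and the swaps of `T` as in `key` of NK/Fin.lean). `nl_four`, then `nl_homs`.
-/

namespace Pool.Agent.MP_9c903d

open scoped ComplexConjugate commutatorElement

section

variable {G : Type*} [Group G]

private theorem Main_swap (D : HodgeRiemannData G) (v w : Fin 4 → H1 G) (i j : Fin 4) (hij : i ≠ j)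
    (h : w = v ∘ Equiv.swap i j) : D.T w = - D.T v := by
  rw [h]
  exact D.T.map_swap v hij

private theorem Main_T01 (D : HodgeRiemannData G) (a b c d : H1 G) :
    D.T ![b, a, c, d] = - D.T ![a, b, c, d] :=
  Main_swap D _ _ 0 1 (by decide) (by funext i; fin_cases i <;> rfl)

private theorem Main_T12 (D : HodgeRiemannData G) (a b c d : H1 G) :
    D.T ![a, c, b, d] = - D.T ![a, b, c, d] :=
  Main_swap D _ _ 1 2 (by decide) (by funext i; fin_cases i <;> rfl)

private theorem Main_split {q : ℕ} (f : Fin q ⊕ Fin q → Fin q ⊕ Fin q → ℂ) :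
    ∑ b, ∑ d, f b d = ∑ i, ∑ j, f (.inl i) (.inl j) + ∑ i, ∑ j, f (.inl i) (.inr j)
      + (∑ i, ∑ j, f (.inr i) (.inl j) + ∑ i, ∑ j, f (.inr i) (.inr j)) := by
  simp only [Fintype.sum_sum_type, Finset.sum_add_distrib]
  abel

private theorem Main_T20 (D : HodgeRiemannData G) {q : ℕ} (ε : Fin q ⊕ Fin q → H1 G)
    (n : Fin q → Fin q → ℂ) (hk : InK ε (arr n 0 0)) (p r : Fin q) :
    ∑ i, ∑ j, n i j * D.T ![ε (.inl i), ε (.inl j), ε (.inr p), ε (.inr r)] = 0 := by
  have h := nl_rel_T D ε (arr n 0 0) hk (ε (.inr p)) (ε (.inr r))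
  rw [Main_split] at h
  simpa only [arr, Pi.zero_apply, neg_zero, zero_mul, Finset.sum_const_zero, add_zero] using h

private theorem Main_T11 (D : HodgeRiemannData G) {q : ℕ} (ε : Fin q ⊕ Fin q → H1 G)
    (n : Fin q → Fin q → ℂ) (hk : InK ε (arr 0 n 0)) :
    InR (fun i j k l : Fin q => D.T ![ε (.inl i), ε (.inl j), ε (.inr k), ε (.inr l)]) n := by
  intro b c
  have h := nl_rel_T D ε (arr 0 n 0) hk (ε (.inl b)) (ε (.inr c))
  rw [Main_split] at h
  simp only [arr, Pi.zero_apply, zero_mul, Finset.sum_const_zero, add_zero, zero_add] at h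
  have e1 : ∀ j k, n j k * D.T ![ε (.inl j), ε (.inr k), ε (.inl b), ε (.inr c)] =
      - (n j k * D.T ![ε (.inl j), ε (.inl b), ε (.inr k), ε (.inr c)]) := by
    intro j k
    rw [Main_T12 D (ε (.inl j)) (ε (.inl b)) (ε (.inr k)) (ε (.inr c)), mul_neg]
  have e2 : ∀ k j, - n j k * D.T ![ε (.inr k), ε (.inl j), ε (.inl b), ε (.inr c)] =
      - (n j k * D.T ![ε (.inl j), ε (.inl b), ε (.inr k), ε (.inr c)]) := by
    intro k j
    rw [Main_T01 D (ε (.inl j)) (ε (.inr k)) (ε (.inl b)) (ε (.inr c)),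
      Main_T12 D (ε (.inl j)) (ε (.inl b)) (ε (.inr k)) (ε (.inr c))]
    ring
  simp only [e1, e2] at h
  rw [Finset.sum_comm (f := fun k j => - (n j k *
        D.T ![ε (.inl j), ε (.inl b), ε (.inr k), ε (.inr c)]))] at h
  simp only [Finset.sum_neg_distrib] at h
  have h' : (2 : ℂ) * ∑ j, ∑ k, n j k *
        D.T ![ε (.inl j), ε (.inl b), ε (.inr k), ε (.inr c)] = 0 := by
    linear_combination - h
  exact (mul_eq_zero.1 h').resolve_left two_ne_zero

end

theorem nl_main {G : Type*} [Group G] (D : HodgeTypeData G) [Module.Finite ℂ (H1 G)]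
    (hn : Group.IsNilpotent G) (htf : ∀ g : G, ∀ n : ℕ, 0 < n → g ^ n = 1 → g = 1)
    (hc : 3 ≤ Group.nilpotencyClass G) :
    ∃ l : Fin 4 → (Additive ((⊤ : Subgroup G).lowerCentralSeries 1) →+ ℂ),
      LinearIndependent ℂ l ∧ ∀ m, ∀ x : (⊤ : Subgroup G).lowerCentralSeries 1,
        (x : G) ∈ (⊤ : Subgroup G).lowerCentralSeries 2 → l m (.ofMul x) = 0 := by
  obtain ⟨q, ε, h1, h2⟩ := exists_basis D.toHodgeRiemannData
  obtain ⟨θ, hθ1, hθ2, hθ3⟩ := exists_theta hn htf hc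
  obtain ⟨t, ⟨g0, h0, l0, hne⟩, ht1, ht2, ht3, ht4, ht5⟩ := exists_trilinear θ hθ1 hθ2 hθ3
  obtain ⟨c, hct, hca, hcj⟩ := trilinear_coord ε t ht1 ht2 ht3 ht4
  have hP := isForm D.toHodgeRiemannData hn ε h1 h2
  have hq : 2 ≤ q := by
    have h10 := main D.toHodgeRiemannData hn htf hc
    rw [Module.finrank_eq_card_basis ε, Fintype.card_sum, Fintype.card_fin] at h10
    omega
  have hcne : c ≠ 0 := by
    intro h
    apply hne
    rw [hct, h]
    simp
  have hslice : ∀ a, c a ∈ Ksub ε := by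
    intro a
    refine nl_slice ε c (Ksub ε) ?_ a
    intro g
    show InK ε (fun j k => ∑ i, c i j k * ε i (.ofMul g))
    refine ⟨fun j k => ?_, ?_⟩
    · show ∑ i, c i j k * ε i (.ofMul g) = - ∑ i, c i k j * ε i (.ofMul g)
      rw [← Finset.sum_neg_distrib]
      refine Finset.sum_congr rfl fun i _ => ?_
      rw [hca i j k, neg_mul]
    · obtain ⟨c0, hc0⟩ := ht5 g
      refine ⟨c0, fun h l => ?_⟩
      rw [← hc0, hct]
      have hR : ∑ i, ∑ j, ∑ k, c i j k * ε i (.ofMul g) * ε j (.ofMul h) * ε k (.ofMul l) =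
          ∑ j, ∑ k, ∑ i, c i j k * ε i (.ofMul g) * ε j (.ofMul h) * ε k (.ofMul l) := by
        rw [Finset.sum_comm]
        exact Finset.sum_congr rfl fun j _ => Finset.sum_comm
      rw [hR]
      refine Finset.sum_congr rfl fun j _ => Finset.sum_congr rfl fun k _ => ?_
      simp only [Finset.sum_mul]
  obtain ⟨k, hk, hkK⟩ := nl_four hP hq (Ksub ε) (fun k hk => hk.1)
    (fun k hk => nl_rel_bar ε h2 k hk) (fun n h n' hk => nl_rel_part D ε h1 h2 n h n' hk)
    (fun n hk p r => Main_T20 D.toHodgeRiemannData ε n hk p r)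
    (fun h hk => Main_T11 D.toHodgeRiemannData ε h hk) c hcne hslice hcj
  exact nl_homs ε k hk hkK

end Pool.Agent.MP_9c903d
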