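import Pool.Agent.Lib.MP_9c903d_ag.NK.RankS

/-!
# Part Pull: no element of the radical lives on a space of dimension at most three

Proof. Put `Q m b n c := F P (s m) (s b) (star (s n)) (star (s c))`. `IsForm Q` on `Fin r`: alt1, alt2 by
`rank_F_swap12`, `rank_F_swap34` (NK/Rank.lean, public), herm by expanding `F` and `hP.herm`, pos:
`F Q a b (star a) (star b) = F P (∑ a_m s_m) (∑ b_m s_m) (star ..) (star ..) > 0` because `∑ a_m s_m`
and `∑ b_m s_m` are independent. `InR Q x`: `∑ x_mn Q m b n c = ∑_{j,l} (s b)_j (conj (s c)_l) ∑_{i,k}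
h_ik P i j k l = 0` (as in RankS_sum of NK/RankS.lean). If `x ≠ 0`, then `singular_elt` for `Q`
(`q := r`, `2 ≤ r`, `r ≤ 4`, `Or.inr (r ≤ 3)`) gives `r = 4`: contradiction.
-/

namespace Pool.Agent.MP_9c903d

open scoped ComplexConjugate

variable {q r : ℕ} {P : Fin q → Fin q → Fin q → Fin q → ℂ}

private theorem Pull_comm {α β γ δ : Type*} [Fintype α] [Fintype β] [Fintype γ] [Fintype δ]
    (φ : α → β → γ → δ → ℂ) :
    ∑ a, ∑ b, ∑ c, ∑ d, φ a b c d = ∑ c, ∑ d, ∑ a, ∑ b, φ a b c d := by
  calc ∑ a, ∑ b, ∑ c, ∑ d, φ a b c d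
      = ∑ p : α × β, ∑ r : γ × δ, φ p.1 p.2 r.1 r.2 := by simp only [Fintype.sum_prod_type]
    _ = ∑ r : γ × δ, ∑ p : α × β, φ p.1 p.2 r.1 r.2 := Finset.sum_comm
    _ = _ := by simp only [Fintype.sum_prod_type]

private theorem Pull_herm (hP : IsForm P) (a b c d : Fin q → ℂ) :
    F P c d (star a) (star b) = conj (F P a b (star c) (star d)) := by
  unfold F
  simp only [map_sum, map_mul]
  rw [Pull_comm]
  refine Finset.sum_congr rfl fun i _ => Finset.sum_congr rfl fun j _ =>
    Finset.sum_congr rfl fun k _ => Finset.sum_congr rfl fun l _ => ?_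
  rw [hP.herm i j k l]
  simp only [Pi.star_apply, RCLike.star_def, Complex.conj_conj]
  ring

private theorem Pull_lin (hP : IsForm P) (s t : Fin r → Fin q → ℂ) (a b c d : Fin r → ℂ) :
    F (fun m b n c => F P (s m) (s b) (t n) (t c)) a b c d =
      F P (∑ m, a m • s m) (∑ m, b m • s m) (∑ m, c m • t m) (∑ m, d m • t m) := by
  have z1 : ∀ b c d : Fin q → ℂ, F P 0 b c d = 0 := fun b c d => by simp [F]
  have z2 : ∀ a c d : Fin q → ℂ, F P a 0 c d = 0 := fun b c d => by simp [F]
  have z3 : ∀ a b d : Fin q → ℂ, F P a b 0 d = 0 := fun b c d => by simp [F]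
  have z4 : ∀ a b c : Fin q → ℂ, F P a b c 0 = 0 := fun b c d => by simp [F]
  have s1 : ∀ (S : Finset (Fin r)) (A : Fin r → Fin q → ℂ) (b c d : Fin q → ℂ) (w : Fin r → ℂ),
      F P (∑ i ∈ S, w i • A i) b c d = ∑ i ∈ S, w i * F P (A i) b c d := by
    intro S A b c d w
    induction S using Finset.induction_on with
    | empty => simp [z1]
    | insert i S hi ih => rw [Finset.sum_insert hi, Finset.sum_insert hi, rank_F_add1, rank_F_smul1, ih]
  have s2 : ∀ (S : Finset (Fin r)) (A : Fin r → Fin q → ℂ) (a c d : Fin q → ℂ) (w : Fin r → ℂ),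
      F P a (∑ i ∈ S, w i • A i) c d = ∑ i ∈ S, w i * F P a (A i) c d := by
    intro S A a c d w
    induction S using Finset.induction_on with
    | empty => simp [z2]
    | insert i S hi ih =>
      rw [Finset.sum_insert hi, Finset.sum_insert hi, rank_F_add2 hP, rank_F_smul2 hP, ih]
  have s3 : ∀ (S : Finset (Fin r)) (U : Fin r → Fin q → ℂ) (a b d : Fin q → ℂ) (w : Fin r → ℂ),
      F P a b (∑ i ∈ S, w i • U i) d = ∑ i ∈ S, w i * F P a b (U i) d := by
    intro S U a b d w
    induction S using Finset.induction_on with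
    | empty => simp [z3]
    | insert i S hi ih => rw [Finset.sum_insert hi, Finset.sum_insert hi, rank_F_add3, rank_F_smul3, ih]
  have s4 : ∀ (S : Finset (Fin r)) (U : Fin r → Fin q → ℂ) (a b c : Fin q → ℂ) (w : Fin r → ℂ),
      F P a b c (∑ i ∈ S, w i • U i) = ∑ i ∈ S, w i * F P a b c (U i) := by
    intro S U a b c w
    induction S using Finset.induction_on with
    | empty => simp [z4]
    | insert i S hi ih =>
      rw [Finset.sum_insert hi, Finset.sum_insert hi, rank_F_add4 hP, rank_F_smul4 hP, ih]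
  rw [s1]
  show (∑ i, ∑ j, ∑ k, ∑ l, a i * b j * c k * d l * F P (s i) (s j) (t k) (t l)) = _
  refine Finset.sum_congr rfl fun i _ => ?_
  rw [s2, Finset.mul_sum]
  refine Finset.sum_congr rfl fun j _ => ?_
  rw [s3, Finset.mul_sum, Finset.mul_sum]
  refine Finset.sum_congr rfl fun k _ => ?_
  rw [s4, Finset.mul_sum, Finset.mul_sum, Finset.mul_sum]
  refine Finset.sum_congr rfl fun l _ => ?_
  ring

private theorem Pull_form (hP : IsForm P) (s : Fin r → Fin q → ℂ) (hs : LinearIndependent ℂ s) :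
    IsForm (fun m b n c => F P (s m) (s b) (star (s n)) (star (s c))) where
  alt1 i j k l := rank_F_swap12 hP _ _ _ _
  alt2 i j k l := rank_F_swap34 hP _ _ _ _
  herm i j k l := Pull_herm hP _ _ _ _
  pos a b hab := by
    rw [Pull_lin hP s (fun n => star (s n))]
    have hst : ∀ w : Fin r → ℂ, ∑ m, (star w) m • star (s m) = star (∑ m, w m • s m) := by
      intro w
      rw [star_sum]
      refine Finset.sum_congr rfl fun m _ => ?_
      rw [star_smul, Pi.star_apply]
    rw [hst, hst]
    refine hP.pos _ _ ?_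
    rw [LinearIndependent.pair_iff] at hab ⊢
    intro x y hxy
    refine hab x y ?_
    rw [Fintype.linearIndependent_iff] at hs
    have h1 : ∑ m, (x * a m + y * b m) • s m = 0 := by
      rw [← hxy, Finset.smul_sum, Finset.smul_sum, ← Finset.sum_add_distrib]
      refine Finset.sum_congr rfl fun m _ => ?_
      rw [add_smul, smul_smul, smul_smul]
    funext m
    have h2 := hs _ h1 m
    simpa only [Pi.add_apply, Pi.smul_apply, smul_eq_mul, Pi.zero_apply] using h2

private theorem Pull_inR (s : Fin r → Fin q → ℂ) (x : Fin r → Fin r → ℂ)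
    (h : InR P (fun j k => ∑ m, ∑ n, x m n * s m j * conj (s n k))) :
    InR (fun m b n c => F P (s m) (s b) (star (s n)) (star (s c))) x := by
  intro b c
  have h1 : ∑ m, ∑ n, x m n * F P (s m) (s b) (star (s n)) (star (s c)) =
      ∑ j, ∑ l, s b j * (star (s c)) l *
        ∑ i, ∑ k, (∑ m, ∑ n, x m n * s m i * conj (s n k)) * P i j k l := by
    have e1 : ∀ m n, x m n * F P (s m) (s b) (star (s n)) (star (s c)) =
        ∑ j, ∑ l, ∑ i, ∑ k, x m n * (s m i * s b j * conj (s n k) * conj (s c l) * P i j k l) := by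
      intro m n
      have e2 : F P (s m) (s b) (star (s n)) (star (s c)) =
          ∑ j, ∑ l, ∑ i, ∑ k, s m i * s b j * conj (s n k) * conj (s c l) * P i j k l := by
        show (∑ i, ∑ j, ∑ k, ∑ l, s m i * s b j * conj (s n k) * conj (s c l) * P i j k l) = _
        rw [Finset.sum_comm]
        refine Finset.sum_congr rfl fun j _ => ?_
        rw [Finset.sum_congr rfl fun i _ => Finset.sum_comm]
        rw [Finset.sum_comm]
      rw [e2]
      simp only [Finset.mul_sum]
    simp only [e1]
    calc ∑ m, ∑ n, ∑ j, ∑ l, ∑ i, ∑ k, x m n * (s m i * s b j * conj (s n k) * conj (s c l) * P i j k l)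
        = ∑ j, ∑ l, ∑ m, ∑ n, ∑ i, ∑ k,
            x m n * (s m i * s b j * conj (s n k) * conj (s c l) * P i j k l) := Pull_comm _
      _ = _ := by
          refine Finset.sum_congr rfl fun j _ => Finset.sum_congr rfl fun l _ => ?_
          rw [Pull_comm]
          simp only [Finset.mul_sum, Finset.sum_mul]
          refine Finset.sum_congr rfl fun i _ => Finset.sum_congr rfl fun k _ =>
            Finset.sum_congr rfl fun m _ => Finset.sum_congr rfl fun n _ => ?_
          simp only [Pi.star_apply, RCLike.star_def]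
          ring
  rw [h1]
  refine Finset.sum_eq_zero fun j _ => Finset.sum_eq_zero fun l _ => ?_
  rw [h j l, mul_zero]

theorem nl_pull {q r : ℕ} {P : Fin q → Fin q → Fin q → Fin q → ℂ} (hP : IsForm P) (hr : 2 ≤ r)
    (hr3 : r ≤ 3) (s : Fin r → Fin q → ℂ) (hs : LinearIndependent ℂ s) (x : Fin r → Fin r → ℂ)
    (h : InR P (fun j k => ∑ m, ∑ n, x m n * s m j * conj (s n k))) : x = 0 := by
  by_contra hx
  obtain ⟨h4, _⟩ := singular_elt (Pull_form hP s hs) hr (by omega) x (Pull_inR s x h) hx
    (Or.inr hr3)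
  omega

end Pool.Agent.MP_9c903d
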