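import Pool.Agent.Lib.MP_9c903d_ag.NL.Defs
import Pool.Agent.Lib.MP_9c903d_ag.NK.Coord

/-!
# Part RelA: the space of relations

Proofs. `nl_rel_T`: `D.cup` for the pairs `(k_ij • ε_i, ε_j)`, indexed by `I × I ≃ Fin n`
(`Fintype.equivFin`), exactly as in the private `K_of_cup` of NK/Fin.lean. `nl_rel_bar`: conjugate
the equation and reindex by `Equiv.sumComm` (`ε i.swap = cj (ε i)`, as in NK/Fin.lean). `nl_slice`: the
vectors `(ε_i(g))_i`, `g ∈ G`, span `I → ℂ`: else some nonzero linear form vanishes on them, against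
`coeff_zero`. The linear map `v ↦ ∑ v_i c_i` maps them into `K`, so it maps everything into `K`.
-/

namespace Pool.Agent.MP_9c903d

open scoped ComplexConjugate commutatorElement

/-- The space of the alternating relations. -/
def Ksub {G : Type*} [Group G] {I : Type*} [Fintype I] (ε : I → H1 G) :
    Submodule ℂ (I → I → ℂ) where
  carrier := {k | InK ε k}
  add_mem' := by
    rintro k l ⟨hk, c, hc⟩ ⟨hl, d, hd⟩
    refine ⟨fun i j => ?_, fun g => c g + d g, fun g h => ?_⟩
    · show k i j + l i j = -(k j i + l j i)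
      rw [hk i j, hl i j]
      ring
    · have e : ∑ i, ∑ j, (k + l) i j * ε i (.ofMul g) * ε j (.ofMul h) =
          ∑ i, ∑ j, k i j * ε i (.ofMul g) * ε j (.ofMul h) +
            ∑ i, ∑ j, l i j * ε i (.ofMul g) * ε j (.ofMul h) := by
        simp only [Pi.add_apply, add_mul, Finset.sum_add_distrib]
      rw [e, hc, hd]
      ring
  zero_mem' := by
    refine ⟨fun i j => ?_, fun _ => 0, fun g h => ?_⟩
    · show (0 : ℂ) = -0
      simp
    · simp
  smul_mem' := by
    rintro r k ⟨hk, c, hc⟩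
    refine ⟨fun i j => ?_, fun g => r * c g, fun g h => ?_⟩
    · show r * k i j = -(r * k j i)
      rw [hk i j]
      ring
    · have e : ∑ i, ∑ j, (r • k) i j * ε i (.ofMul g) * ε j (.ofMul h) =
          r * ∑ i, ∑ j, k i j * ε i (.ofMul g) * ε j (.ofMul h) := by
        simp only [Finset.mul_sum]
        refine Finset.sum_congr rfl fun i _ => Finset.sum_congr rfl fun j _ => ?_
        show r * k i j * _ * _ = _
        ring
      rw [e, hc]
      ring

theorem nl_rel_T {G : Type*} [Group G] (D : HodgeRiemannData G) {I : Type*} [Fintype I]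
    (ε : I → H1 G) (k : I → I → ℂ) (hk : InK ε k) (x y : H1 G) :
    ∑ i, ∑ j, k i j * D.T ![ε i, ε j, x, y] = 0 := by
  obtain ⟨-, c, hc⟩ := hk
  let e := Fintype.equivFin (I × I)
  have hcz : CupZero (fun m => k (e.symm m).1 (e.symm m).2 • ε (e.symm m).1)
      (fun m => ε (e.symm m).2) := by
    refine ⟨c, fun g h => ?_⟩
    rw [← hc, Equiv.sum_comp e.symm
      (fun p : I × I => (k p.1 p.2 • ε p.1) (.ofMul g) * ε p.2 (.ofMul h)),
      Fintype.sum_prod_type]
    rfl
  have hT := D.cup _ _ _ hcz x y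
  rw [Equiv.sum_comp e.symm (fun p : I × I => D.T ![k p.1 p.2 • ε p.1, ε p.2, x, y]),
    Fintype.sum_prod_type] at hT
  rw [← hT]
  refine Finset.sum_congr rfl fun i _ => Finset.sum_congr rfl fun j _ => ?_
  exact (D.T.toMultilinearMap.cons_smul ![ε j, x, y] (k i j) (ε i)).symm

theorem nl_rel_bar {G : Type*} [Group G] {q : ℕ} (ε : Fin q ⊕ Fin q → H1 G)
    (h2 : ∀ i, ε (Sum.inr i) = cj (ε (Sum.inl i))) (k : Fin q ⊕ Fin q → Fin q ⊕ Fin q → ℂ)
    (hk : InK ε k) : InK ε (fun i j => conj (k i.swap j.swap)) := by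
  obtain ⟨ha, c, hc⟩ := hk
  have hs : ∀ (i : Fin q ⊕ Fin q) (x : Additive G), ε i x = conj (ε i.swap x) := by
    intro i x
    rcases i with i | i
    · show ε (.inl i) x = conj (ε (.inr i) x)
      rw [h2]
      show ε (.inl i) x = conj (conj (ε (.inl i) x))
      rw [Complex.conj_conj]
    · show ε (.inr i) x = conj (ε (.inl i) x)
      rw [h2]
      rfl
  refine ⟨fun i j => ?_, fun g => conj (c g), fun g h => ?_⟩
  · show conj (k i.swap j.swap) = - conj (k j.swap i.swap)
    rw [ha, map_neg]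
  · have e1 : ∀ i j : Fin q ⊕ Fin q, conj (k i.swap j.swap) * ε i (.ofMul g) * ε j (.ofMul h) =
        conj (k i.swap j.swap * ε i.swap (.ofMul g) * ε j.swap (.ofMul h)) := by
      intro i j
      rw [map_mul, map_mul, ← hs, ← hs]
    simp only [e1]
    have e2 : ∀ F : Fin q ⊕ Fin q → Fin q ⊕ Fin q → ℂ,
        ∑ i : Fin q ⊕ Fin q, ∑ j : Fin q ⊕ Fin q, F i.swap j.swap = ∑ i, ∑ j, F i j := by
      intro F
      calc ∑ i : Fin q ⊕ Fin q, ∑ j : Fin q ⊕ Fin q, F i.swap j.swap
          = ∑ i : Fin q ⊕ Fin q, ∑ j, F i.swap j :=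
            Finset.sum_congr rfl fun i _ =>
              Equiv.sum_comp (Equiv.sumComm (Fin q) (Fin q)) (fun j => F i.swap j)
        _ = ∑ i, ∑ j, F i j :=
            Equiv.sum_comp (Equiv.sumComm (Fin q) (Fin q)) (fun i => ∑ j, F i j)
    rw [e2 (fun i j => conj (k i j * ε i (.ofMul g) * ε j (.ofMul h)))]
    simp only [← map_sum]
    rw [hc]
    simp only [map_sub]

theorem nl_slice {G : Type*} [Group G] {I : Type*} [Fintype I] (ε : Module.Basis I ℂ (H1 G))
    (c : I → I → I → ℂ) (K : Submodule ℂ (I → I → ℂ))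
    (h : ∀ g : G, (fun j k => ∑ i, c i j k * ε i (.ofMul g)) ∈ K) (a : I) : c a ∈ K := by
  classical
  let W : Submodule ℂ (I → ℂ) := Submodule.span ℂ (Set.range fun g : G => fun i => ε i (.ofMul g))
  have hW : W = ⊤ := by
    by_contra hne
    obtain ⟨f, hf, hle⟩ := Submodule.exists_le_ker_of_lt_top W (lt_top_iff_ne_top.2 hne)
    apply hf
    have hfv : ∀ v : I → ℂ, f v = ∑ i, f (Pi.single i 1) * v i := by
      intro v
      conv_lhs => rw [pi_eq_sum_univ' v]
      rw [map_sum]
      refine Finset.sum_congr rfl fun i _ => ?_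
      rw [map_smul, smul_eq_mul, mul_comm]
    have h0 : (fun i => f (Pi.single i 1)) = 0 := by
      refine coeff_zero ε _ fun g => ?_
      rw [← hfv (fun i => ε i (.ofMul g))]
      exact hle (Submodule.subset_span ⟨g, rfl⟩)
    refine LinearMap.ext fun v => ?_
    rw [hfv]
    refine Finset.sum_eq_zero fun i _ => ?_
    rw [show f (Pi.single i 1) = 0 from congrFun h0 i, zero_mul]
  let L : (I → ℂ) →ₗ[ℂ] (I → I → ℂ) :=
    { toFun := fun v j k => ∑ i, c i j k * v i
      map_add' := fun v w => by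
        funext j k
        simp only [Pi.add_apply, mul_add, Finset.sum_add_distrib]
      map_smul' := fun r v => by
        funext j k
        simp only [Pi.smul_apply, smul_eq_mul, RingHom.id_apply, Finset.mul_sum]
        exact Finset.sum_congr rfl fun i _ => by ring }
  have hL : W ≤ K.comap L := by
    refine Submodule.span_le.2 ?_
    rintro _ ⟨g, rfl⟩
    exact h g
  have ha : L (Pi.single a 1) ∈ K := hL (hW ▸ Submodule.mem_top)
  have hca : L (Pi.single a 1) = c a := by
    funext j k
    show ∑ i, c i j k * (Pi.single a (1 : ℂ) : I → ℂ) i = c a j k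
    rw [Finset.sum_eq_single a]
    · simp
    · intro b _ hb
      simp [hb]
    · intro hna
      exact absurd (Finset.mem_univ a) hna
  rwa [hca] at ha

end Pool.Agent.MP_9c903d
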